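import Mathlib

/-!
MP_c13a79_gt: the assembly map of Poincaré duality groups. It is an isomorphism for all of them
as soon as it is surjective in degree zero for all of them; and for orientable Poincaré duality
groups it is enough that `L₀(ℤ) → L₀(ℤΓ)` is surjective for all acyclic groups `Γ` with a finite
classifying space.
-/

set_option autoImplicit false

namespace Pool.Agent.Results.MP_c13a79_gt.AcyclicGroups

open CategoryTheory Function

universe u

/-- A group with a character to `{1,-1}`. -/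
structure OGrp where
  /-- the group -/
  G : Type
  [grp : Group G]
  /-- the character -/
  w : G →* ℤˣ

attribute [instance] OGrp.grp

/-- Homomorphisms compatible with the characters. -/
@[ext]
structure OGrp.Hom (X Y : OGrp) where
  /-- the homomorphism -/
  f : X.G →* Y.G
  w_f : Y.w.comp f = X.w

instance : Category OGrp where
  Hom := OGrp.Hom
  id X := ⟨MonoidHom.id _, rfl⟩
  comp a b := ⟨b.f.comp a.f, by rw [← MonoidHom.comp_assoc, b.w_f, a.w_f]⟩

/-- The trivial group. -/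
def one : OGrp := ⟨Unit, 1⟩

/-- `1 → X`. -/
def fromOne (X : OGrp) : one ⟶ X := OGrp.Hom.mk 1 (by
  ext x; rw [MonoidHom.comp_apply, MonoidHom.one_apply, map_one]; rfl)

/-- Product with a group `K`; the character is that of the first factor. -/
def OGrp.prod (X : OGrp) (K : Type) [Group K] : OGrp :=
  ⟨X.G × K, X.w.comp (MonoidHom.fst X.G K)⟩

/-- The projection `X × K → X`. -/
def OGrp.fst (X : OGrp) (K : Type) [Group K] : X.prod K ⟶ X :=
  OGrp.Hom.mk (MonoidHom.fst X.G K) rfl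

/-- `X × ℤ`. -/
def OGrp.timesZ (X : OGrp) : OGrp := X.prod (Multiplicative ℤ)

/-- The projection `X × ℤ → X`. -/
def OGrp.pr (X : OGrp) : X.timesZ ⟶ X := X.fst (Multiplicative ℤ)

/-- Homomorphisms of abelian groups. -/
structure Hm (P Q : Type u) [AddCommGroup P] [AddCommGroup Q] where
  /-- the map -/
  f : P → Q
  add : ∀ x y, f (x + y) = f x + f y

instance {P Q : Type u} [AddCommGroup P] [AddCommGroup Q] : CoeFun (Hm P Q) fun _ => P → Q :=
  ⟨Hm.f⟩

/-- Functors from groups with a character to abelian groups, one in each degree. -/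
structure Fun where
  /-- the groups -/
  obj : ℤ → OGrp → Type u
  [ab : ∀ n X, AddCommGroup (obj n X)]
  /-- the induced maps -/
  map : ∀ n {X Y : OGrp}, (X ⟶ Y) → Hm (obj n X) (obj n Y)
  map_id : ∀ n X x, map n (𝟙 X) x = x
  map_comp : ∀ n {X Y Z : OGrp} (a : X ⟶ Y) (b : Y ⟶ Z) x, map n (a ≫ b) x = map n b (map n a x)

attribute [instance] Fun.ab

/-- Natural homomorphisms in each degree. -/
structure Trans (h L : Fun.{u}) where
  /-- the homomorphisms -/
  app : ∀ n X, Hm (h.obj n X) (L.obj n X)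
  nat : ∀ n {X Y : OGrp} (f : X ⟶ Y) x, app n Y (h.map n f x) = L.map n f (app n X x)

/-- `f` induces isomorphisms in all degrees. -/
def Eqv (E : Fun.{u}) {X Y : OGrp} (f : X ⟶ Y) : Prop := ∀ n, Bijective (E.map n f)

/-- `X → 1` induces isomorphisms in all degrees (in particular the character is trivial). -/
def Acyclic (E : Fun.{u}) (X : OGrp) : Prop := ∃ t : X ⟶ one, Eqv E t

/-- The sequence `E_{n+1}(Z) → E_n(Y) → E_n(X₁) ⊕ E_n(X₂) → E_n(Z)`, with the first map `d`,
is exact at the two middle places. -/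
structure IsMV (E : Fun.{u}) {Y X₁ X₂ Z : OGrp} (i : Y ⟶ X₁) (j : Y ⟶ X₂)
    (k₁ : X₁ ⟶ Z) (k₂ : X₂ ⟶ Z) (d : ∀ n, Hm (E.obj (n + 1) Z) (E.obj n Y)) : Prop where
  left : ∀ n a, (E.map n i a = 0 ∧ E.map n j a = 0) ↔ ∃ z, d n z = a
  mid : ∀ n p q, E.map n k₁ p = E.map n k₂ q ↔ ∃ a, E.map n i a = p ∧ E.map n j a = q

/-- The same with exactness at `E_{n+1}(Z)`. -/
structure IsExactMV (E : Fun.{u}) {Y X₁ X₂ Z : OGrp} (i : Y ⟶ X₁) (j : Y ⟶ X₂)
    (k₁ : X₁ ⟶ Z) (k₂ : X₂ ⟶ Z) (d : ∀ n, Hm (E.obj (n + 1) Z) (E.obj n Y)) : Prop where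
  mv : IsMV E i j k₁ k₂ d
  right : ∀ n z, d n z = 0 ↔ ∃ p q, z = E.map (n + 1) k₁ p + E.map (n + 1) k₂ q

/-- Four-fold periodicity of `A` at `X`. -/
def Periodic {h L : Fun.{u}} (A : Trans h L) (X : OGrp) : Prop :=
  ∀ n, ∃ (a : Hm (h.obj (n + 4) X) (h.obj n X)) (b : Hm (L.obj (n + 4) X) (L.obj n X)),
    Bijective a ∧ Bijective b ∧ ∀ x, A.app n X (a x) = b (A.app (n + 4) X x)

/-- `A n X` is a direct summand of `A (n+1) (X × ℤ)` by maps `s, s', r, r'`, and `s` goes to
zero under the projection `X × ℤ → X`. -/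
def Splits {h L : Fun.{u}} (A : Trans h L) (X : OGrp) : Prop :=
  ∀ n, ∃ (s : Hm (h.obj n X) (h.obj (n + 1) X.timesZ))
    (r : Hm (h.obj (n + 1) X.timesZ) (h.obj n X))
    (s' : Hm (L.obj n X) (L.obj (n + 1) X.timesZ))
    (r' : Hm (L.obj (n + 1) X.timesZ) (L.obj n X)),
    (∀ x, r (s x) = x) ∧ (∀ x, r' (s' x) = x) ∧
    (∀ x, A.app (n + 1) X.timesZ (s x) = s' (A.app n X x)) ∧
    (∀ x, A.app n X (r x) = r' (A.app (n + 1) X.timesZ x)) ∧
    ∀ x, h.map (n + 1) X.pr (s x) = 0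

/-- Mayer-Vietoris sequences for the square, exact for `e` and `h`, and for `L` except possibly
at `L_{n+1}(Z)`, the last two compatible with `A`. -/
def MVs (e : Fun.{u}) {h L : Fun.{u}} (A : Trans h L)
    {Y X₁ X₂ Z : OGrp} (i : Y ⟶ X₁) (j : Y ⟶ X₂) (k₁ : X₁ ⟶ Z) (k₂ : X₂ ⟶ Z) : Prop :=
  (∃ d, IsExactMV e i j k₁ k₂ d) ∧
    ∃ d d', IsExactMV h i j k₁ k₂ d ∧ IsMV L i j k₁ k₂ d' ∧
      ∀ n z, A.app n Y (d n z) = d' n (A.app (n + 1) Z z)

/-- `A` is an isomorphism at `X` in all degrees. -/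
def Iso {h L : Fun.{u}} (A : Trans h L) (X : OGrp) : Prop := ∀ n, Bijective (A.app n X)

/-- `p : X → Y` is covered by an injection `H → K` of groups in `F` for which `A` is an
isomorphism, by `e`-isomorphisms `H → X` and `K → Y`, and `H` embeds in an acyclic group. -/
def Covered (F : (G : Type) → [Group G] → Prop) (e : Fun.{u})
    {h L : Fun.{u}} (A : Trans h L) {X Y : OGrp} (p : X ⟶ Y) : Prop :=
  ∃ (H K K₀ : OGrp) (f : H ⟶ X) (g : K ⟶ Y) (j : H ⟶ K) (c : H.G →* K₀.G),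
    F H.G ∧ F K.G ∧ F K₀.G ∧ j ≫ g = f ≫ p ∧ Injective j.f ∧ Injective c ∧
    Eqv e f ∧ Eqv e g ∧ Acyclic e K₀ ∧ Iso A H ∧ Iso A K

/-- The known facts about assembly maps which are used: `F` groups with a finite classifying
space, `e` homology with coefficients twisted by the character, `h` the homology theory of the
surgery spectrum, `L` the `L`-groups, `A` assembly. -/
structure Assembly (F : (G : Type) → [Group G] → Prop) (e : Fun.{u}) {h L : Fun.{u}}
    (A : Trans h L) : Prop where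
  unit : F Unit
  int : F (Multiplicative ℤ)
  prod : ∀ (G K : Type) [Group G] [Group K], F G → F K → F (G × K)
  /-- homology isomorphisms are isomorphisms for `h` -/
  eqv : ∀ {X Y : OGrp} (f : X ⟶ Y), F X.G → F Y.G → Eqv e f → Eqv h f
  /-- product with an acyclic group -/
  prod_acyclic : ∀ (X K : OGrp), F X.G → F K.G → Acyclic e K → Eqv e (X.fst K.G)
  /-- four-fold periodicity -/
  per : ∀ X : OGrp, F X.G → Periodic A X
  /-- Shaneson splitting for `X × ℤ` -/
  split : ∀ X : OGrp, F X.G → Splits A X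
  /-- Mayer-Vietoris sequences for amalgamated products -/
  amalgam : ∀ {Y X₁ X₂ Z : OGrp} {i : Y ⟶ X₁} {j : Y ⟶ X₂} {k₁ : X₁ ⟶ Z} {k₂ : X₂ ⟶ Z},
    IsPushout i j k₁ k₂ → Injective i.f → Injective j.f → F Y.G → F X₁.G → F X₂.G →
    F Z.G ∧ MVs e A i j k₁ k₂
  /-- Kan-Thurston theorem with CAT(0) groups, and the Farrell-Jones conjecture for them -/
  kanThurston : ∀ {X Y : OGrp} (p : X ⟶ Y), F X.G → F Y.G → Covered F e A p

theorem Hm.zero {P Q : Type u} [AddCommGroup P] [AddCommGroup Q] (s : Hm P Q) : s 0 = 0 := by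
  have h1 := s.add 0 0
  rw [add_zero] at h1
  exact left_eq_add.1 h1

theorem Hm.inj_iff {P Q : Type u} [AddCommGroup P] [AddCommGroup Q] (s : Hm P Q) :
    Injective s.f ↔ ∀ x, s x = 0 → x = 0 := by
  constructor
  · intro h x hx
    exact h (hx.trans s.zero.symm)
  · intro h x y hxy
    have h1 : s (x - y) = 0 := by
      have h2 := s.add (x - y) y
      rw [sub_add_cancel] at h2
      have h3 : s.f x = s.f y := hxy
      rw [h3] at h2
      exact (right_eq_add.1 h2)
    exact sub_eq_zero.1 (h _ h1)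

/-! ### Pushouts of groups with characters -/

section Pushout

variable {Y X₁ X₂ : OGrp} (i : Y ⟶ X₁) (j : Y ⟶ X₂)

/-- The relations of the amalgamated product. -/
def rels : Subgroup (Monoid.Coprod X₁.G X₂.G) :=
  Subgroup.normalClosure (Set.range fun y : Y.G =>
    (Monoid.Coprod.inl (i.f y) : Monoid.Coprod X₁.G X₂.G) * (Monoid.Coprod.inr (j.f y))⁻¹)

instance : (rels i j).Normal := Subgroup.normalClosure_normal

theorem rels_le {K : Type} [Group K] (a : X₁.G →* K) (b : X₂.G →* K)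
    (hab : a.comp i.f = b.comp j.f) : rels i j ≤ (Monoid.Coprod.lift a b).ker := by
  refine Subgroup.normalClosure_le_normal ?_
  rintro _ ⟨y, rfl⟩
  rw [SetLike.mem_coe, MonoidHom.mem_ker, map_mul, map_inv, Monoid.Coprod.lift_apply_inl,
    Monoid.Coprod.lift_apply_inr, mul_inv_eq_one]
  exact DFunLike.congr_fun hab y

/-- The amalgamated product. -/
def amal : OGrp :=
  ⟨Monoid.Coprod X₁.G X₂.G ⧸ rels i j,
    QuotientGroup.lift (rels i j) (Monoid.Coprod.lift X₁.w X₂.w)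
      (rels_le i j X₁.w X₂.w (i.w_f.trans j.w_f.symm))⟩

/-- The first inclusion. -/
def ain₁ : X₁ ⟶ amal i j :=
  OGrp.Hom.mk ((QuotientGroup.mk' (rels i j)).comp Monoid.Coprod.inl)
    (MonoidHom.ext fun x => Monoid.Coprod.lift_apply_inl X₁.w X₂.w x)

/-- The second inclusion. -/
def ain₂ : X₂ ⟶ amal i j :=
  OGrp.Hom.mk ((QuotientGroup.mk' (rels i j)).comp Monoid.Coprod.inr)
    (MonoidHom.ext fun x => Monoid.Coprod.lift_apply_inr X₁.w X₂.w x)

theorem isPushout : IsPushout i j (ain₁ i j) (ain₂ i j) := by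
  have hw : i ≫ ain₁ i j = j ≫ ain₂ i j := by
    refine OGrp.Hom.ext ?_
    ext y
    change (QuotientGroup.mk' (rels i j)) (Monoid.Coprod.inl (i.f y)) =
      (QuotientGroup.mk' (rels i j)) (Monoid.Coprod.inr (j.f y))
    rw [QuotientGroup.mk'_apply, QuotientGroup.mk'_apply, QuotientGroup.eq]
    have h1 : (Monoid.Coprod.inl (i.f y) : Monoid.Coprod X₁.G X₂.G) *
        (Monoid.Coprod.inr (j.f y))⁻¹ ∈ rels i j :=
      Subgroup.subset_normalClosure ⟨y, rfl⟩
    have h2 := (inferInstance : (rels i j).Normal).conj_mem _ ((rels i j).inv_mem h1)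
      (Monoid.Coprod.inl (i.f y))⁻¹
    simpa [mul_assoc] using h2
  refine ⟨⟨hw⟩, ⟨Limits.PushoutCocone.IsColimit.mk hw ?_ ?_ ?_ ?_⟩⟩
  · intro s
    have hs : s.inl.f.comp i.f = s.inr.f.comp j.f := congrArg OGrp.Hom.f s.condition
    refine OGrp.Hom.mk (QuotientGroup.lift (rels i j) (Monoid.Coprod.lift s.inl.f s.inr.f)
      (rels_le i j _ _ hs)) ?_
    apply QuotientGroup.monoidHom_ext
    apply Monoid.Coprod.hom_ext
    · exact MonoidHom.ext fun x => (congrArg s.pt.w
        (Monoid.Coprod.lift_apply_inl s.inl.f s.inr.f x)).trans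
        ((DFunLike.congr_fun s.inl.w_f x).trans
        (Monoid.Coprod.lift_apply_inl X₁.w X₂.w x).symm)
    · exact MonoidHom.ext fun x => (congrArg s.pt.w
        (Monoid.Coprod.lift_apply_inr s.inl.f s.inr.f x)).trans
        ((DFunLike.congr_fun s.inr.w_f x).trans
        (Monoid.Coprod.lift_apply_inr X₁.w X₂.w x).symm)
  · intro s
    refine OGrp.Hom.ext ?_
    ext x
    rfl
  · intro s
    refine OGrp.Hom.ext ?_
    ext x
    rfl
  · intro s m h1 h2
    refine OGrp.Hom.ext ?_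
    apply QuotientGroup.monoidHom_ext
    apply Monoid.Coprod.hom_ext
    · ext x
      exact DFunLike.congr_fun (congrArg OGrp.Hom.f h1) x
    · ext x
      exact DFunLike.congr_fun (congrArg OGrp.Hom.f h2) x

end Pushout

/-! ### The argument -/

/-- The inclusion `X → X × K`. -/
def OGrp.inl (X : OGrp) (K : Type) [Group K] : X ⟶ X.prod K :=
  OGrp.Hom.mk (MonoidHom.inl X.G K) rfl

theorem inl_fst (X : OGrp) (K : Type) [Group K] : X.inl K ≫ X.fst K = 𝟙 X := rfl

section Main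

variable {F : (G : Type) → [Group G] → Prop} {h L e : Fun.{u}} {A : Trans h L}

theorem Eqv.of_comp {E : Fun.{u}} {X Y Z : OGrp} {a : X ⟶ Y} {b : Y ⟶ Z} {c : X ⟶ Z}
    (hc : a ≫ b = c) (h1 : Eqv E b) (h2 : Eqv E c) : Eqv E a := by
  intro n
  have h3 : (E.map n b : _ → _) ∘ E.map n a = E.map n c := by
    funext x
    rw [Function.comp_apply, ← Fun.map_comp, hc]
  have h4 := h2 n
  rw [← h3] at h4
  exact (Bijective.of_comp_iff' (h1 n) _).1 h4

theorem Eqv.of_comp' {E : Fun.{u}} {X Y Z : OGrp} {a : X ⟶ Y} {b : Y ⟶ Z} {c : X ⟶ Z}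
    (hc : a ≫ b = c) (h1 : Eqv E a) (h2 : Eqv E c) : Eqv E b := by
  intro n
  have h3 : (E.map n b : _ → _) ∘ E.map n a = E.map n c := by
    funext x
    rw [Function.comp_apply, ← Fun.map_comp, hc]
  have h4 := h2 n
  rw [← h3] at h4
  exact (Bijective.of_comp_iff _ (h1 n)).1 h4

theorem key (hA : Assembly F e A) {X Y : OGrp} (p : X ⟶ Y) (hX : F X.G) (hY : F Y.G) :
    ∃ (Z : OGrp) (t : Z ⟶ Y), F Z.G ∧ Eqv e t ∧
      (∀ n, Surjective (A.app n Z) → Surjective (A.app n X)) ∧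
      ∀ n, Surjective (A.app (n + 1) Z) → ∀ x : h.obj n X, A.app n X x = 0 →
        h.map n p x = 0 → x = 0 := by
  obtain ⟨H, K, K₀, f, g, j, c, hH, hK, hK₀, hsq, hj, hc, hf, hg, hK₀a, hAH, hAK⟩ :=
    hA.kanThurston p hX hY
  -- the product and the two inclusions of `H`
  have hP : F (X.prod K₀.G).G := hA.prod X.G K₀.G hX hK₀
  have hfst : Eqv e (X.fst K₀.G) := hA.prod_acyclic X K₀ hX hK₀ hK₀a
  let i : H ⟶ X.prod K₀.G := OGrp.Hom.mk (f.f.prod c) (by
    have := f.w_f
    rw [← this]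
    rfl)
  have hi : Injective i.f := fun a b hab => hc (congrArg Prod.snd hab)
  have hif : i ≫ X.fst K₀.G = f := rfl
  have hei : Eqv e i := Eqv.of_comp hif hfst hf
  obtain ⟨hZ, ⟨de, hde⟩, dh, dL, hdh, hdL, hd⟩ :=
    hA.amalgam (isPushout i j) hi hj hH hP hK
  obtain ⟨t, ht1, ht2⟩ := (isPushout i j).exists_desc (X.fst K₀.G ≫ p) g (by
    rw [← Category.assoc, hif, hsq])
  -- `K → Z` is a homology equivalence
  have hek : Eqv e (ain₂ i j) := by
    intro n
    constructor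
    · rw [Hm.inj_iff]
      intro q hq
      obtain ⟨a, ha1, ha2⟩ := (hde.mv.mid n 0 q).1 (by rw [hq, Hm.zero])
      have ha : a = 0 := (hei n).1 (by rw [ha1, Hm.zero])
      rw [← ha2, ha, Hm.zero]
    · have key : ∀ m, Surjective (e.map (m + 1) (ain₂ i j)) := by
        intro m z
        have hz : de m z = 0 := by
          have h1 := (hde.mv.left m (de m z)).2 ⟨z, rfl⟩
          exact (hei m).1 (by rw [h1.1, Hm.zero])
        obtain ⟨a, b, hab⟩ := (hde.right m z).1 hz
        obtain ⟨y, hy⟩ := (hei (m + 1)).2 a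
        refine ⟨e.map (m + 1) j y + b, ?_⟩
        have h2 : e.map (m + 1) (ain₁ i j) a = e.map (m + 1) (ain₂ i j)
            (e.map (m + 1) j y) := (hde.mv.mid (m + 1) _ _).2 ⟨y, hy, rfl⟩
        rw [hab, h2, Hm.add]
      have := key (n - 1)
      rwa [sub_add_cancel] at this
  have het : Eqv e t := Eqv.of_comp' ht2 hek hg
  refine ⟨amal i j, t, hZ, het, ?_, ?_⟩
  · -- surjectivity
    intro n hs a
    have hhk : Eqv h (ain₂ i j) := hA.eqv _ hK hZ hek
    obtain ⟨v, hv⟩ := hs (L.map n (ain₁ i j) (L.map n (X.inl K₀.G) a))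
    obtain ⟨v₁, rfl⟩ := (hhk n).2 v
    rw [A.nat] at hv
    obtain ⟨b, hb1, hb2⟩ := (hdL.mid n _ _).1 hv.symm
    obtain ⟨y, rfl⟩ := (hAH n).2 b
    refine ⟨h.map n f y, ?_⟩
    rw [A.nat, ← hif, Fun.map_comp, hb1, ← Fun.map_comp, inl_fst, Fun.map_id]
  · -- injectivity
    intro n hs x hx hpx
    have hhf : Eqv h f := hA.eqv _ hH hX hf
    have hhg : Eqv h g := hA.eqv _ hK hY hg
    have hhfst : Eqv h (X.fst K₀.G) := hA.eqv _ hP hX hfst
    obtain ⟨y, hy⟩ := (hhf n).2 x
    have h1 : h.map n i y = h.map n (X.inl K₀.G) x := by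
      apply (hhfst n).1
      rw [← Fun.map_comp, ← Fun.map_comp, hif, inl_fst, Fun.map_id, hy]
    have h2 : h.map n j y = 0 := by
      apply (hhg n).1
      rw [← Fun.map_comp, hsq, Fun.map_comp, hy, hpx, Hm.zero]
    have h3 : L.map n i (A.app n H y) = 0 := by
      rw [← A.nat, h1, A.nat, hx, Hm.zero]
    have h4 : L.map n j (A.app n H y) = 0 := by
      rw [← A.nat, h2, Hm.zero]
    obtain ⟨z, hz⟩ := (hdL.left n _).1 ⟨h3, h4⟩
    obtain ⟨v, rfl⟩ := hs z
    rw [← hd] at hz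
    have h5 : dh n v = y := (hAH n).1 hz
    have h6 := ((hdh.mv.left n y).2 ⟨v, h5⟩).1
    rw [← hy, ← hif, Fun.map_comp, h6, Hm.zero]

theorem surj_retract {X P : OGrp} (r : Retract X P) (n : ℤ) (hP : Surjective (A.app n P)) :
    Surjective (A.app n X) := by
  intro a
  obtain ⟨v, hv⟩ := hP (L.map n r.i a)
  refine ⟨h.map n r.r v, ?_⟩
  rw [A.nat, hv, ← Fun.map_comp, r.retract, Fun.map_id]

theorem inj_retract {X P : OGrp} (r : Retract X P) (n : ℤ) (hP : Injective (A.app n P)) :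
    Injective (A.app n X) := by
  rw [Hm.inj_iff] at hP ⊢
  intro x hx
  have h1 := hP (h.map n r.i x) (by rw [A.nat, hx, Hm.zero])
  rw [← h.map_id n X x, ← r.retract, Fun.map_comp, h1, Hm.zero]

theorem retract_w {X P : OGrp} (r : Retract X P) (hX : X.w = 1) : P.w = 1 := by
  have h1 := r.r.w_f
  rw [← h1, hX]
  rfl

theorem int_all (P : ℤ → Prop) (n₀ : ℤ) (h0 : P n₀) (hd : ∀ n, P (n + 1) → P n)
    (hp : ∀ n, P n → P (n + 4)) (n : ℤ) : P n := by
  have h1 : ∀ k : ℕ, P (n₀ - k) := by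
    intro k
    induction k with
    | zero => simpa using h0
    | succ k ih =>
      apply hd
      have h2 : n₀ - ((k + 1 : ℕ) : ℤ) + 1 = n₀ - k := by push_cast; ring
      rwa [h2]
  have h3 : ∀ (k : ℕ) (m : ℤ), P m → P (m + 4 * k) := by
    intro k
    induction k with
    | zero => intro m hm; simpa using hm
    | succ k ih =>
      intro m hm
      have h4 := hp _ (ih m hm)
      have h5 : m + 4 * ((k + 1 : ℕ) : ℤ) = m + 4 * k + 4 := by push_cast; ring
      rwa [h5]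
  obtain ⟨k, hk⟩ : ∃ k : ℕ, n - 4 * k ≤ n₀ := ⟨(n - n₀).toNat, by omega⟩
  obtain ⟨l, hl⟩ : ∃ l : ℕ, n - 4 * k = n₀ - l := ⟨(n₀ - (n - 4 * k)).toNat, by omega⟩
  have h6 := h3 k (n - 4 * k) (by rw [hl]; exact h1 l)
  rwa [sub_add_cancel] at h6

theorem eqv_id (E : Fun.{u}) (X : OGrp) : Eqv E (𝟙 X) := by
  intro n
  have h1 : (E.map n (𝟙 X) : _ → _) = id := by funext x; exact E.map_id n X x
  rw [h1]
  exact bijective_id

theorem down_surj (hA : Assembly F e A) {X : OGrp} (hX : F X.G) (n : ℤ)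
    (hs : Surjective (A.app (n + 1) (X.timesZ))) :
    Surjective (A.app n X) := by
  obtain ⟨s, r, s', r', h1, h2, h3, h4, h5⟩ := hA.split X hX n
  intro a
  obtain ⟨v, hv⟩ := hs (s' a)
  exact ⟨r v, by rw [h4, hv, h2]⟩

theorem down_inj (hA : Assembly F e A) {X : OGrp} (hX : F X.G) (n : ℤ)
    (hs : Injective (A.app (n + 1) (X.timesZ))) :
    Injective (A.app n X) := by
  obtain ⟨s, r, s', r', h1, h2, h3, h4, h5⟩ := hA.split X hX n
  rw [Hm.inj_iff] at hs ⊢
  intro x hx
  have h6 := hs (s x) (by rw [h3, hx, Hm.zero])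
  rw [← h1 x, h6, Hm.zero]

theorem up_surj (hA : Assembly F e A) {X : OGrp} (hX : F X.G) (n : ℤ)
    (hs : Surjective (A.app n X)) : Surjective (A.app (n + 4) X) := by
  obtain ⟨a, b, ha, hb, hab⟩ := hA.per X hX n
  intro y
  obtain ⟨v, hv⟩ := hs (b y)
  obtain ⟨x, rfl⟩ := ha.2 v
  refine ⟨x, hb.1 ?_⟩
  rw [← hab, hv]

theorem up_inj (hA : Assembly F e A) {X : OGrp} (hX : F X.G) (n : ℤ)
    (hs : Injective (A.app n X)) : Injective (A.app (n + 4) X) := by
  obtain ⟨a, b, ha, hb, hab⟩ := hA.per X hX n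
  rw [Hm.inj_iff] at hs ⊢
  intro x hx
  have h1 := hs (a x) (by rw [hab, hx, Hm.zero])
  exact (Hm.inj_iff a).1 ha.1 x h1

end Main

/-- The assembly map is an isomorphism in all degrees for all Poincaré duality groups `PD` as soon
as it is surjective in degree zero for all of them; and it is an isomorphism for the orientable
ones if and only if `L₀(ℤ) → L₀(ℤΓ)` is surjective for all acyclic groups `Γ` with a finite
classifying space. -/
theorem result (F : (G : Type) → [Group G] → Prop) (PD : OGrp → Prop)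
    (h L e : Fun.{u}) (A : Trans h L) (hA : Assembly F e A)
    (hPF : ∀ X, PD X → ∃ P : OGrp, F P.G ∧ Nonempty (Retract X P))
    (hFP : ∀ X : OGrp, F X.G → ∃ P, PD P ∧ Nonempty (Retract X P)) :
    ((∀ X, PD X → Iso A X) ↔ ∀ X, PD X → Surjective (A.app 0 X)) ∧
    ((∀ X, PD X → X.w = 1 → Iso A X) ↔
      ∀ Γ : OGrp, F Γ.G → Acyclic e Γ → Surjective (L.map 0 (fromOne Γ))) := by
  -- the trivial group
  have hone : ∀ n, Bijective (A.app n one) := by
    obtain ⟨H, K, K₀, f, g, j, c, hH, hK, hK₀, hsq, hj, hc, hf, hg, hK₀a, hAH, hAK⟩ :=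
      hA.kanThurston (𝟙 one) hA.unit hA.unit
    have r : Retract one H := ⟨fromOne H, f, rfl⟩
    intro n
    exact ⟨inj_retract r n (hAH n).1, surj_retract r n (hAH n).2⟩
  refine ⟨⟨fun hb X hX => (hb X hX 0).2, ?_⟩, ?_, ?_⟩
  · -- surjectivity in degree zero suffices
    intro hs
    have h1 : ∀ n, ∀ X : OGrp, F X.G → Surjective (A.app n X) := by
      refine int_all _ 0 ?_ ?_ ?_
      · intro X hX
        obtain ⟨P, hP, ⟨r⟩⟩ := hFP X hX
        exact surj_retract r 0 (hs P hP)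
      · intro n hn X hX
        exact down_surj hA hX n (hn _ (hA.prod _ _ hX hA.int))
      · intro n hn X hX
        exact up_surj hA hX n (hn X hX)
    have h2 : ∀ n, ∀ X : OGrp, F X.G → Injective (A.app n X) := by
      intro n X hX
      obtain ⟨Z, t, hZ, ht, -, hinj⟩ := key hA (X.pr)
        (hA.prod _ _ hX hA.int) hX
      obtain ⟨s, r, s', r', h3, h4, h5, h6, h7⟩ := hA.split X hX n
      rw [Hm.inj_iff]
      intro x hx
      have h8 := hinj (n + 1) (h1 _ Z hZ) (s x) (by rw [h5, hx, Hm.zero]) (h7 x)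
      rw [← h3 x, h8, Hm.zero]
    intro X hX n
    obtain ⟨P, hP, ⟨r⟩⟩ := hPF X hX
    exact ⟨inj_retract r n (h2 n P hP), surj_retract r n (h1 n P hP)⟩
  · -- orientable groups: necessity
    intro hb Γ hΓ hac
    obtain ⟨t, ht⟩ := hac
    have hw : Γ.w = 1 := by rw [← t.w_f]; rfl
    obtain ⟨P, hP, ⟨r⟩⟩ := hFP Γ hΓ
    have hsur : Surjective (A.app 0 Γ) :=
      surj_retract r 0 (hb P hP (retract_w r hw) 0).2
    have h1 : Eqv h (fromOne Γ) :=
      Eqv.of_comp (c := 𝟙 one) rfl (hA.eqv t hΓ hA.unit ht) (eqv_id h one)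
    intro a
    obtain ⟨v, rfl⟩ := hsur a
    obtain ⟨x, rfl⟩ := (h1 0).2 v
    exact ⟨A.app 0 one x, (A.nat 0 _ _).symm⟩
  · -- orientable groups: sufficiency
    intro hs
    have hsur : ∀ Γ : OGrp, F Γ.G → Acyclic e Γ → Surjective (A.app 0 Γ) := by
      intro Γ hΓ hac a
      obtain ⟨b, rfl⟩ := hs Γ hΓ hac a
      obtain ⟨x, rfl⟩ := (hone 0).2 b
      exact ⟨h.map 0 (fromOne Γ) x, A.nat 0 _ _⟩
    have h1 : ∀ n, ∀ X : OGrp, F X.G → X.w = 1 → Surjective (A.app n X) := by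
      refine int_all _ 0 ?_ ?_ ?_
      · intro X hX hw
        let p : X ⟶ one := OGrp.Hom.mk 1 (by rw [hw]; rfl)
        obtain ⟨Z, t, hZ, ht, hsj, -⟩ := key hA p hX hA.unit
        exact hsj 0 (hsur Z hZ ⟨t, ht⟩)
      · intro n hn X hX hw
        exact down_surj hA hX n (hn _ (hA.prod _ _ hX hA.int) (by
          change X.w.comp _ = 1
          rw [hw]; rfl))
      · intro n hn X hX hw
        exact up_surj hA hX n (hn X hX hw)
    have h2 : ∀ n, ∀ X : OGrp, F X.G → X.w = 1 → Injective (A.app n X) := by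
      refine int_all _ (-1) ?_ ?_ ?_
      · intro X hX hw
        let p : X ⟶ one := OGrp.Hom.mk 1 (by rw [hw]; rfl)
        obtain ⟨Z, t, hZ, ht, -, hinj⟩ := key hA p hX hA.unit
        have h9 : ∀ m : ℤ, m = 0 → Surjective (A.app m Z) := by
          rintro _ rfl
          exact hsur Z hZ ⟨t, ht⟩
        rw [Hm.inj_iff]
        intro x hx
        refine hinj (-1) (h9 _ (by norm_num)) x hx ?_
        apply (hone (-1)).1
        rw [A.nat, hx, Hm.zero, Hm.zero]
      · intro n hn X hX hw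
        exact down_inj hA hX n (hn _ (hA.prod _ _ hX hA.int) (by
          change X.w.comp _ = 1
          rw [hw]; rfl))
      · intro n hn X hX hw
        exact up_inj hA hX n (hn X hX hw)
    intro X hX hw n
    obtain ⟨P, hP, ⟨r⟩⟩ := hPF X hX
    have hPw := retract_w r hw
    exact ⟨inj_retract r n (h2 n P hP hPw), surj_retract r n (h1 n P hP hPw)⟩

end Pool.Agent.Results.MP_c13a79_gt.AcyclicGroups
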